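import Pool.Agent.H95.CG.Targets
import Pool.Agent.H63.HK.DS
import Pool.Agent.H76.HK.EP

/-!
# (ZB) the Dedekind zeta function near `1`
-/

set_option autoImplicit false

open NumberField NumberField.InfinitePlace Complex Set Filter Topology MeasureTheory
open scoped nonZeroDivisors

namespace Pool.Agent.H74.CG

open Pool.Agent.H95.CG Pool.Agent.H25.HK

lemma sum_rpow_le (σ : ℝ) (h0 : 0 < σ) (h1 : σ ≤ 1) :
    ∑' m : ℕ, (m : ℝ) ^ (-(1 + σ)) ≤ 2 / σ := by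
  have hs : Summable (fun m : ℕ => (m : ℝ) ^ (-(1 + σ))) :=
    Real.summable_nat_rpow.2 (by linarith)
  rw [← hs.sum_add_tsum_nat_add 2]
  have h2 : ∑ i ∈ Finset.range 2, ((i : ℕ) : ℝ) ^ (-(1 + σ)) = 1 := by
    rw [Finset.sum_range_succ, Finset.sum_range_one]
    rw [Nat.cast_zero, Real.zero_rpow (by linarith)]
    simp
  have h3 : ∑' i : ℕ, ((i + 2 : ℕ) : ℝ) ^ (-(1 + σ)) ≤ 1 / σ := by
    refine Real.tsum_le_of_sum_range_le (fun i => by positivity) fun N => ?_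
    have h4 : AntitoneOn (fun x : ℝ => x ^ (-(1 + σ))) (Icc (1 : ℝ) (1 + N)) := by
      intro x hx y hy hxy
      exact Real.rpow_le_rpow_of_nonpos (by linarith [hx.1]) hxy (by linarith)
    have h5 := h4.sum_le_integral
    have h6 : ∫ x in (1 : ℝ)..(1 + N), x ^ (-(1 + σ)) = (1 - (1 + (N : ℝ)) ^ (-σ)) / σ := by
      rw [integral_rpow]
      · rw [show -(1 + σ) + 1 = -σ by ring, Real.one_rpow]
        field_simp
        ring
      · right
        refine ⟨by linarith, ?_⟩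
        rw [uIcc_of_le (by linarith [Nat.cast_nonneg (α := ℝ) N])]
        intro h
        linarith [h.1]
    rw [h6] at h5
    have h7 : ∑ i ∈ Finset.range N, ((i + 2 : ℕ) : ℝ) ^ (-(1 + σ)) =
        ∑ i ∈ Finset.range N, ((1 : ℝ) + ((i + 1 : ℕ) : ℝ)) ^ (-(1 + σ)) := by
      refine Finset.sum_congr rfl fun i _ => ?_
      congr 1
      push_cast
      ring
    rw [h7]
    refine h5.trans ?_
    have h8 : 0 ≤ (1 + (N : ℝ)) ^ (-σ) := by positivity
    exact div_le_div_of_nonneg_right (by linarith) h0.le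
  rw [h2]
  have h9 : 1 + 1 / σ ≤ 2 / σ := by
    rw [le_div_iff₀ h0, add_mul, one_div, inv_mul_cancel₀ h0.ne']
    linarith
  linarith

lemma npos {K : Type} [Field K] [NumberField K] (I : {I : Ideal (𝓞 K) // I ≠ ⊥}) :
    0 < Ideal.absNorm I.1 :=
  Nat.pos_of_ne_zero fun h => I.2 (Ideal.absNorm_eq_zero_iff.mp h)

theorem pf_zb : T_ZB := by
  intro K _ _ σ h0 h1
  let e : (Ideal (𝓞 K))⁰ ≃ {I : Ideal (𝓞 K) // I ≠ ⊥} :=
    Equiv.subtypeEquivRight fun I => mem_nonZeroDivisors_iff_ne_zero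
  have hre : 1 < ((1 + σ : ℝ) : ℂ).re := by
    rw [ofReal_re]
    linarith
  obtain ⟨hS, hZ⟩ := Pool.Agent.H63.HK.ds K ((1 + σ : ℝ) : ℂ) hre
  have hnc : ∀ I : {I : Ideal (𝓞 K) // I ≠ ⊥},
      ‖(Ideal.absNorm I.1 : ℂ) ^ (-((1 + σ : ℝ) : ℂ))‖ =
        (Ideal.absNorm I.1 : ℝ) ^ (-(1 + σ)) := by
    intro I
    rw [Complex.norm_natCast_cpow_of_pos (npos I), neg_re, ofReal_re]
  have hS2 : Summable (fun I : {I : Ideal (𝓞 K) // I ≠ ⊥} =>
      (Ideal.absNorm I.1 : ℝ) ^ (-(1 + σ))) := hS.congr hnc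
  have hA : (0 : ℝ) ≤ ∑' I : {I : Ideal (𝓞 K) // I ≠ ⊥},
      (Ideal.absNorm I.1 : ℝ) ^ (-(1 + σ)) := tsum_nonneg fun _ => by positivity
  have hB : ((∑' I : {I : Ideal (𝓞 K) // I ≠ ⊥}, (Ideal.absNorm I.1 : ℝ) ^ (-(1 + σ)) : ℝ) : ℂ) =
      dedekindZeta K ((1 + σ : ℝ) : ℂ) := by
    rw [hZ, Complex.ofReal_tsum]
    refine tsum_congr fun I => ?_
    rw [Complex.ofReal_cpow (by positivity)]
    push_cast
    rfl
  have hmain : ∑' I : {I : Ideal (𝓞 K) // I ≠ ⊥}, (Ideal.absNorm I.1 : ℝ) ^ (-(1 + σ)) ≤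
      (2 / σ) ^ Module.finrank ℚ K := by
    obtain ⟨h, h00, -, -, h3, h4, -⟩ := Pool.Agent.H76.HK.ep K
    have hs : Summable (fun m : ℕ => (m : ℝ) ^ (-(1 + σ))) :=
      Real.summable_nat_rpow.2 (by linarith)
    have hE : ∑' I : {I : Ideal (𝓞 K) // I ≠ ⊥}, (Ideal.absNorm I.1 : ℝ) ^ (-(1 + σ)) =
        ‖dedekindZeta K ((1 + σ : ℝ) : ℂ)‖ := by
      rw [← hB, Complex.norm_real, Real.norm_of_nonneg hA]
    rw [hE, h4 _ hre, norm_prod]
    have hC : ∀ j : Fin (Module.finrank ℚ K),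
        ‖∑' m : ℕ, h j m * (m : ℂ) ^ (-((1 + σ : ℝ) : ℂ))‖ ≤ 2 / σ := by
      intro j
      have hle : ∀ m : ℕ, ‖h j m * (m : ℂ) ^ (-((1 + σ : ℝ) : ℂ))‖ ≤
          (m : ℝ) ^ (-(1 + σ)) := by
        intro m
        rcases Nat.eq_zero_or_pos m with rfl | hm
        · rw [h00 j]
          simp only [zero_mul, norm_zero]
          positivity
        · rw [norm_mul, Complex.norm_natCast_cpow_of_pos hm, neg_re, ofReal_re]
          exact mul_le_of_le_one_left (by positivity) (h3 j m)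
      refine (norm_tsum_le_tsum_norm (Summable.of_nonneg_of_le (fun _ => norm_nonneg _) hle
        hs)).trans ?_
      exact (Summable.tsum_le_tsum hle (Summable.of_nonneg_of_le (fun _ => norm_nonneg _) hle hs)
        hs).trans (sum_rpow_le σ h0 h1)
    calc ∏ j : Fin (Module.finrank ℚ K), ‖∑' m : ℕ, h j m * (m : ℂ) ^ (-((1 + σ : ℝ) : ℂ))‖
        ≤ ∏ _j : Fin (Module.finrank ℚ K), (2 / σ) :=
          Finset.prod_le_prod (fun _ _ => norm_nonneg _) fun j _ => hC j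
      _ = (2 / σ) ^ Module.finrank ℚ K := by
          rw [Finset.prod_const, Finset.card_univ, Fintype.card_fin]
  constructor
  · exact (e.summable_iff (f := fun I : {I : Ideal (𝓞 K) // I ≠ ⊥} =>
      (Ideal.absNorm I.1 : ℝ) ^ (-(1 + σ)))).2 hS2
  · have h5 := e.tsum_eq (fun I : {I : Ideal (𝓞 K) // I ≠ ⊥} =>
      (Ideal.absNorm I.1 : ℝ) ^ (-(1 + σ)))
    rw [← h5] at hmain
    exact hmain

end Pool.Agent.H74.CG
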